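import Pool.Agent.Helper87_EDG.Contr

/-!
# Squad EDG, block Q (helper87): the three statements `QdiStmt`, `QdkStmt`, `QdzStmt`

`qdi : QdiStmt`, `qdk : QdkStmt`, `qdz : QdzStmt`, no hypotheses.
-/

set_option autoImplicit false

open Finset

namespace Pool.Agent.EDG.H87

variable {n : ℕ} [NeZero n]

/-- the product along a cycle -/
def cyc {M : Type} [CommMonoid M] (u : ZMod n → M) (k : ZMod n) : M :=
  ∏ j ∈ range k.val, u (j : ZMod n)

theorem prod_zmod {M : Type} [CommMonoid M] (u : ZMod n → M) :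
    ∏ k, u k = ∏ j ∈ range n, u (j : ZMod n) := by
  refine prod_nbij' (fun k => k.val) (fun j => (j : ZMod n)) ?_ ?_ ?_ ?_ ?_
  · intro k _
    exact mem_range.mpr (ZMod.val_lt k)
  · intro j _
    exact mem_univ _
  · intro k _
    exact ZMod.natCast_zmod_val k
  · intro j hj
    exact ZMod.val_cast_of_lt (mem_range.mp hj)
  · intro k _
    rw [ZMod.natCast_zmod_val]

theorem cyc_succ {M : Type} [CommMonoid M] (u : ZMod n → M) (hu : ∏ k, u k = 1) (k : ZMod n) :
    cyc u (k + 1) = cyc u k * u k := by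
  set s : ℕ → M := fun m => ∏ j ∈ range m, u (j : ZMod n) with hs
  have hper : Function.Periodic s n := by
    intro m
    simp only [hs]
    rw [prod_range_add]
    have h1 : ∏ j ∈ range n, u ((m + j : ℕ) : ZMod n) = 1 := by
      have h2 := prod_zmod (fun k => u ((m : ZMod n) + k))
      have h3 : ∏ k, u ((m : ZMod n) + k) = ∏ k, u k :=
        Equiv.prod_comp (Equiv.addLeft (m : ZMod n)) u
      rw [h3, hu] at h2
      rw [h2]
      apply prod_congr rfl
      intro j _
      rw [Nat.cast_add]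
    rw [h1, mul_one]
  have h1 : cyc u (k + 1) = s ((k + 1).val) := rfl
  have h2 : (k + 1).val = (k.val + 1) % n := by
    rw [ZMod.val_add, ZMod.val_one_eq_one_mod, Nat.add_mod_mod]
  rw [h1, h2, hper.map_mod_nat]
  show ∏ j ∈ range (k.val + 1), u (j : ZMod n) = _
  rw [prod_range_succ, ZMod.natCast_zmod_val]
  rfl

/-- induction along the cycle -/
theorem zmod_ind (P : ZMod n → Prop) (k0 : ZMod n) (h0 : P k0) (hs : ∀ k, P k → P (k + 1))
    (k : ZMod n) : P k := by
  have h : ∀ m : ℕ, P (k0 + m) := by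
    intro m
    induction m with
    | zero => simpa using h0
    | succ m ih =>
      have := hs _ ih
      rw [Nat.cast_add, Nat.cast_one, ← add_assoc]
      exact this
  have := h (k - k0).val
  rwa [ZMod.natCast_zmod_val, add_sub_cancel] at this

theorem ne_of_norm_prod (x : ZMod n → ℂ) (h : ‖∏ k, 2 * x k‖ = 1) (k : ZMod n) : x k ≠ 0 := by
  intro hk
  have : ∏ k, 2 * x k = 0 := prod_eq_zero (mem_univ k) (by rw [hk, mul_zero])
  rw [this, norm_zero] at h
  exact zero_ne_one h

/-- a positive function with `t (k + 1) = ‖2 x_k‖ t k` -/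
theorem exists_t (x : ZMod n → ℂ) (h : ‖∏ k, 2 * x k‖ = 1) :
    ∃ t : ZMod n → ℝ, (∀ k, 0 < t k) ∧ ∀ k, t (k + 1) = ‖2 * x k‖ * t k := by
  refine ⟨cyc (fun k => ‖2 * x k‖), ?_, ?_⟩
  · intro k
    apply prod_pos
    intro j _
    exact norm_pos_iff.mpr (mul_ne_zero two_ne_zero (ne_of_norm_prod x h _))
  · intro k
    rw [cyc_succ _ (by rw [← norm_prod]; exact h), mul_comm]

theorem qdi : QdiStmt := by
  intro c n _ x b hinj hx hb hb0 hsum
  have hb1 : ∀ k, b k ≠ 0 := by
    intro k
    refine zmod_ind (fun k => b k ≠ 0) 0 hb0 ?_ k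
    intro k hk h0
    apply hk
    rw [← hb k, h0, zero_mul]
  have hx0 : ∀ k, x k ≠ 0 := by
    intro k h0
    apply hb1 k
    rw [← hb k, h0, mul_zero, mul_zero]
  have := contr c (Equiv.addRight (1 : ZMod n)) x (fun _ => 0) b (fun k => ‖b k‖⁻¹) hinj
    (fun k => hx k) (fun _ => rfl) (fun k => by
      show b k - 2 * x k * b (k + 1) = 0 * (x k)⁻¹
      rw [zero_mul, ← hb k]
      ring) hx0 hsum (fun k => inv_pos.mpr (norm_pos_iff.mpr (hb1 k))) (fun k => by
      show ‖b (k + 1)‖⁻¹ = ‖2 * x k‖ * ‖b k‖⁻¹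
      have h1 : ‖b k‖ = ‖b (k + 1)‖ * ‖2 * x k‖ := by rw [← norm_mul, hb k]
      have h2 : ‖b (k + 1)‖ ≠ 0 := norm_ne_zero_iff.mpr (hb1 _)
      have h3 : ‖2 * x k‖ ≠ 0 := norm_ne_zero_iff.mpr (mul_ne_zero two_ne_zero (hx0 k))
      rw [h1]
      field_simp) 0
  exact hb0 this.2

theorem qdk : QdkStmt := by
  intro c n _ x b hinj hx hn hb hsum
  have hx0 := ne_of_norm_prod x hn
  obtain ⟨t, ht, hts⟩ := exists_t x hn
  have := contr c (Equiv.addRight (1 : ZMod n)) x (fun _ => 1) b t hinj
    (fun k => hx k) (fun _ => rfl) (fun k => by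
      show b k - 2 * x k * b (k + 1) = 1 * (x k)⁻¹
      rw [one_mul]
      exact hb k) hx0 hsum ht hts 0
  exact one_ne_zero this.1

/-- solvability of the linear system if the multiplier is not one -/
theorem exists_b (x : ZMod n → ℂ) (hx0 : ∀ k, x k ≠ 0) (hw : ∏ k, 2 * x k ≠ 1)
    (y : ZMod n → ℂ) : ∃ b : ZMod n → ℂ, ∀ k, b k - 2 * x k * b (k + 1) = y k := by
  let L : (ZMod n → ℂ) →ₗ[ℂ] (ZMod n → ℂ) :=
    { toFun := fun b k => b k - 2 * x k * b (k + 1)
      map_add' := by
        intro b b'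
        funext k
        simp only [Pi.add_apply]
        ring
      map_smul' := by
        intro s b
        funext k
        simp only [Pi.smul_apply, smul_eq_mul, RingHom.id_apply]
        ring }
  have hinj : Function.Injective L := by
    rw [← LinearMap.ker_eq_bot, LinearMap.ker_eq_bot']
    intro b hb
    have h1 : ∀ k, b k = 2 * x k * b (k + 1) := by
      intro k
      have := congrFun hb k
      exact sub_eq_zero.mp this
    have h2 : ∏ k, b k = (∏ k, 2 * x k) * ∏ k, b k := by
      calc ∏ k, b k = ∏ k, (2 * x k * b (k + 1)) := prod_congr rfl fun k _ => h1 k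
        _ = (∏ k, 2 * x k) * ∏ k, b (k + 1) := prod_mul_distrib
        _ = (∏ k, 2 * x k) * ∏ k, b k := by
          have h5 : ∏ k, b (k + 1) = ∏ k, b k := Equiv.prod_comp (Equiv.addRight (1 : ZMod n)) b
          rw [h5]
    have h3 : ∏ k, b k = 0 := by
      have h4 : (1 - ∏ k, 2 * x k) * ∏ k, b k = 0 := by linear_combination h2
      rcases mul_eq_zero.mp h4 with h | h
      · exact absurd (sub_eq_zero.mp h).symm hw
      · exact h
    obtain ⟨k0, -, hk0⟩ := prod_eq_zero_iff.mp h3
    funext k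
    refine zmod_ind (fun k => b k = 0) k0 hk0 ?_ k
    intro k hk
    have h5 := h1 k
    rw [hk] at h5
    rcases mul_eq_zero.mp h5.symm with h | h
    · exact absurd h (mul_ne_zero two_ne_zero (hx0 k))
    · exact h
  obtain ⟨b, hb⟩ := (LinearMap.injective_iff_surjective.mp hinj) y
  exact ⟨b, fun k => congrFun hb k⟩

theorem qdz : QdzStmt := by
  intro n _ x hinj hx hne hn
  have hx0 := ne_of_norm_prod x hn
  obtain ⟨t, ht, hts⟩ := exists_t x hn
  -- the coefficients
  obtain ⟨α, b, hb, hnz⟩ : ∃ (α : ℂ) (b : ZMod n → ℂ),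
      (∀ k, b k - 2 * x k * b (k + 1) = α * (x k)⁻¹) ∧ ¬ (α = 0 ∧ b 0 = 0) := by
    by_cases hw : ∏ k, 2 * x k = 1
    · refine ⟨0, cyc (fun k => (2 * x k)⁻¹), ?_, ?_⟩
      · intro k
        rw [cyc_succ _ (by rw [prod_inv_distrib, hw, inv_one])]
        have := hx0 k
        field_simp
        ring
      · rintro ⟨-, h⟩
        unfold cyc at h
        rw [ZMod.val_zero, range_zero, prod_empty] at h
        exact one_ne_zero h
    · obtain ⟨b, hb⟩ := exists_b x hx0 hw (fun k => (x k)⁻¹)
      refine ⟨1, b, ?_, ?_⟩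
      · intro k
        rw [one_mul]
        exact hb k
      · rintro ⟨h, -⟩
        exact one_ne_zero h
  have key := contr (1 / 4) (Equiv.optionCongr (Equiv.addRight (1 : ZMod n)))
    (fun o : Option (ZMod n) => o.elim (1 / 2) x) (fun o => o.elim 0 (fun _ => α))
    (fun o => o.elim (-∑ k, b k) b) (fun o => o.elim 1 t) ?_ ?_ ?_ ?_ ?_ ?_ ?_ ?_ (some 0)
  · exact hnz key
  · rintro (_ | k) (_ | j) h
    · rfl
    · exact absurd h.symm (hne j)
    · exact absurd h (hne k)
    · exact congrArg some (hinj h)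
  · rintro (_ | k)
    · simp only [Equiv.optionCongr_apply, Option.map_none, Option.elim_none]
      norm_num
    · exact hx k
  · rintro (_ | k)
    · rfl
    · rfl
  · rintro (_ | k)
    · simp only [Equiv.optionCongr_apply, Option.map_none, Option.elim_none]
      ring
    · exact hb k
  · rintro (_ | k)
    · show (1 / 2 : ℂ) ≠ 0
      norm_num
    · exact hx0 k
  · rw [Fintype.sum_option]
    simp
  · rintro (_ | k)
    · exact one_pos
    · exact ht k
  · rintro (_ | k)
    · simp only [Equiv.optionCongr_apply, Option.map_none, Option.elim_none]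
      norm_num
    · exact hts k

end Pool.Agent.EDG.H87
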