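import Pool.Agent.Helper87_EDG.Quad

/-!
# Squad EDG, block Q (helper87): the contraction theorem
-/

set_option autoImplicit false

open MeasureTheory Set Filter Topology

namespace Pool.Agent.EDG.H87

variable {ι : Type} [Fintype ι] [DecidableEq ι]

theorem ev_small (A B : ℝ) (hB : 0 < B) : ∀ᶠ r in 𝓝[>] (0 : ℝ), r * A ≤ B := by
  have h1 : Tendsto (fun r : ℝ => r * A) (𝓝[>] 0) (𝓝 (0 * A)) :=
    ((continuous_id.mul continuous_const).tendsto 0).mono_left nhdsWithin_le_nhds
  rw [zero_mul] at h1
  filter_upwards [h1.eventually (gt_mem_nhds hB)] with r hr using hr.le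

/-- the area of a thin annulus -/
theorem ann_area (p : ℂ) (ρ τ : ℝ) (hρ : 0 ≤ ρ) (hτ : 0 ≤ τ) (hτ1 : τ ≤ 1) :
    volume (Metric.closedBall p ρ \ Metric.closedBall p (ρ * (1 - τ)))
      ≤ ENNReal.ofReal (2 * Real.pi * ρ ^ 2 * τ) := by
  have h1 : 0 ≤ ρ * (1 - τ) := mul_nonneg hρ (by linarith)
  have h2 : ρ * (1 - τ) ≤ ρ := by nlinarith
  have hpi : (NNReal.pi : ENNReal) = ENNReal.ofReal Real.pi := by
    rw [← NNReal.coe_real_pi, ENNReal.ofReal_coe_nnreal]
  rw [measure_sdiff (Metric.closedBall_subset_closedBall h2)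
    Metric.isClosed_closedBall.measurableSet.nullMeasurableSet
    (by rw [Complex.volume_closedBall]; finiteness),
    Complex.volume_closedBall, Complex.volume_closedBall, hpi, ← ENNReal.ofReal_pow hρ,
    ← ENNReal.ofReal_pow h1, ← ENNReal.ofReal_mul (by positivity),
    ← ENNReal.ofReal_mul (by positivity), ← ENNReal.ofReal_sub _ (by positivity)]
  apply ENNReal.ofReal_le_ofReal
  have : 0 ≤ Real.pi * ρ ^ 2 * τ ^ 2 := by positivity
  nlinarith

/-- the contraction theorem -/
theorem contr (c : ℂ) (σ : Equiv.Perm ι) (x a b : ι → ℂ) (t : ι → ℝ)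
    (hinj : Function.Injective x) (hx : ∀ k, x (σ k) = x k ^ 2 + c)
    (ha : ∀ k, a (σ k) = a k) (hb : ∀ k, b k - 2 * x k * b (σ k) = a k * (x k)⁻¹)
    (hx0 : ∀ k, x k ≠ 0) (hsum : ∑ k, b k = 0) (ht : ∀ k, 0 < t k)
    (hts : ∀ k, t (σ k) = ‖2 * x k‖ * t k) (k : ι) : a k = 0 ∧ b k = 0 := by
  set q : ℂ → ℂ := qq x a b with hq
  have hqm : Measurable q := qq_measurable x a b
  set K : ℝ := ∑ k, (‖a k‖ + ‖b k‖) with hK
  have hK0 : 0 ≤ K := Finset.sum_nonneg fun k _ => by positivity
  set S : ℝ := ∑ k, ‖x k‖ with hS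
  have hS0 : 0 ≤ S := Finset.sum_nonneg fun k _ => by positivity
  have hxS : ∀ k, ‖x k‖ ≤ S := fun k =>
    Finset.single_le_sum (f := fun k => ‖x k‖) (fun j _ => norm_nonneg _) (Finset.mem_univ k)
  set R : ℝ := ‖c‖ + S + 4 with hR
  have hc0 : 0 ≤ ‖c‖ := norm_nonneg c
  set D : Set ℂ := {z : ℂ | R - 1 < ‖z‖ ∧ ‖z‖ < R} with hD
  have hDo : IsOpen D :=
    (isOpen_lt continuous_const continuous_norm).inter (isOpen_lt continuous_norm continuous_const)
  have hDne : D.Nonempty := by
    refine ⟨((R - 1 / 2 : ℝ) : ℂ), ?_⟩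
    have h1 : ‖((R - 1 / 2 : ℝ) : ℂ)‖ = R - 1 / 2 := by
      rw [Complex.norm_real, Real.norm_of_nonneg]
      linarith
    constructor
    · rw [h1]; linarith
    · rw [h1]; linarith
  have hDx : ∀ z ∈ D, ∀ k, z ≠ x k := by
    rintro z ⟨h1, h2⟩ k rfl
    have := hxS k
    linarith
  -- the constants
  obtain ⟨ρ0, hρ0, hρt⟩ : ∃ ρ0 : ℝ, 0 < ρ0 ∧ ∀ k, ρ0 ≤ t k / 2 := by
    have h1 : ∀ᶠ r in 𝓝[>] (0 : ℝ), ∀ k, r * 1 ≤ t k / 2 := by
      rw [Filter.eventually_all]
      exact fun k => ev_small 1 _ (by have := ht k; linarith)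
    obtain ⟨r, hr1, hr2⟩ := (h1.and self_mem_nhdsWithin).exists
    exact ⟨r, hr2, fun k => by simpa using hr1 k⟩
  have hm : ∀ k, 0 < 2 * ‖x k‖ := fun k => by have := norm_pos_iff.mpr (hx0 k); linarith
  set τ : ι → ℝ := fun k => t k / (2 * ‖x k‖) with hτ
  have hτ0 : ∀ k, 0 < τ k := fun k => div_pos (ht k) (hm k)
  set Cst : ℝ := ∑ k, K / ρ0 ^ 2 * (2 * Real.pi * t k ^ 2 * τ k) with hCst
  -- the estimate for small `r`
  have hmain : ∀ᶠ r in 𝓝[>] (0 : ℝ), ∫⁻ z in D, ‖q z‖ₑ ≤ ENNReal.ofReal (Cst * r) := by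
    have c1 : ∀ᶠ r in 𝓝[>] (0 : ℝ), ∀ k, r * t k ≤ 1 := by
      rw [Filter.eventually_all]
      exact fun k => ev_small _ _ one_pos
    have c2 : ∀ᶠ r in 𝓝[>] (0 : ℝ), ∀ k, r * τ k ≤ 1 / 2 := by
      rw [Filter.eventually_all]
      exact fun k => ev_small _ _ (by norm_num)
    have c3 : ∀ᶠ r in 𝓝[>] (0 : ℝ), ∀ k j, k ≠ j → r * (t k + t j) ≤ ‖x k - x j‖ := by
      rw [Filter.eventually_all]
      intro k
      rw [Filter.eventually_all]
      intro j
      by_cases hkj : k = j
      · exact Filter.Eventually.of_forall fun r h => absurd hkj h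
      · have h1 : 0 < ‖x k - x j‖ := norm_pos_iff.mpr (sub_ne_zero.mpr fun h => hkj (hinj h))
        filter_upwards [ev_small (t k + t j) _ h1] with r hr _ using hr
    filter_upwards [c1, c2, c3, ev_small ρ0 1 one_pos, self_mem_nhdsWithin] with r r1 r2 r3 r4 r0
    have hr0 : 0 < r := r0
    have hrρ : 0 < r * ρ0 := mul_pos hr0 hρ0
    set A : Set ℂ := Metric.ball 0 R \ ⋃ k, Metric.closedBall (x k) (r * t k) with hA
    have hAm : MeasurableSet A := by
      apply Metric.isOpen_ball.measurableSet.diff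
      exact MeasurableSet.iUnion fun k => Metric.isClosed_closedBall.measurableSet
    have hAk : ∀ z ∈ A, ∀ k, r * t k < ‖z - x k‖ := by
      intro z hz k
      by_contra hcon
      apply hz.2
      rw [mem_iUnion]
      refine ⟨k, ?_⟩
      rw [Metric.mem_closedBall, dist_eq_norm]
      exact not_lt.mp hcon
    have hpush := push c q hqm A hAm (fun s _ hs => feq c σ x a b hx ha hb hx0 hsum s
      (fun k hk => by
        have h1 := hAk _ hs k
        rw [hk, sub_self, norm_zero] at h1
        have := mul_pos hr0 (ht k)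
        linarith))
    set An : ι → Set ℂ := fun k =>
      Metric.closedBall (x k) (r * t k) \ Metric.closedBall (x k) (r * t k * (1 - r * τ k)) with hAn
    have hsub : (fun z : ℂ => z ^ 2 + c) ⁻¹' A ⊆ (A \ D) ∪ ⋃ k, An k := by
      intro z hz
      have hz1 : ‖z ^ 2 + c‖ < R := by
        have := hz.1
        rwa [mem_ball_zero_iff] at this
      have hz2 : ‖z‖ ^ 2 < R + ‖c‖ := by
        have h1 : ‖z ^ 2‖ ≤ ‖z ^ 2 + c‖ + ‖c‖ := by
          have := norm_sub_le (z ^ 2 + c) c
          simpa using this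
        rw [norm_pow] at h1
        linarith
      have hz3 : ‖z‖ < R - 1 := by
        have h1 : R + ‖c‖ ≤ (R - 1) ^ 2 := by nlinarith
        have h2 : ‖z‖ ^ 2 < (R - 1) ^ 2 := hz2.trans_le h1
        exact lt_of_pow_lt_pow_left₀ 2 (by linarith) h2
      by_cases hex : ∃ k, ‖z - x k‖ ≤ r * t k
      · right
        obtain ⟨k, hk⟩ := hex
        rw [mem_iUnion]
        refine ⟨k, ?_, ?_⟩
        · rw [Metric.mem_closedBall, dist_eq_norm]; exact hk
        · intro hcon
          rw [Metric.mem_closedBall, dist_eq_norm] at hcon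
          have h1 := hAk _ hz (σ k)
          have h2 : z ^ 2 + c - x (σ k) = (z - x k) * (z + x k) := by rw [hx k]; ring
          have h3 : ‖z + x k‖ ≤ 2 * ‖x k‖ + ‖z - x k‖ := by
            have : z + x k = 2 * x k + (z - x k) := by ring
            rw [this]
            refine (norm_add_le _ _).trans ?_
            rw [norm_mul]
            simp
          rw [h2, norm_mul, hts k, norm_mul] at h1
          have h4 : ‖(2 : ℂ)‖ = 2 := by simp
          rw [h4] at h1
          have hmk := hm k
          have h5 : τ k * (2 * ‖x k‖) = t k := div_mul_cancel₀ _ hmk.ne'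
          set m := 2 * ‖x k‖ with hmdef
          set d := ‖z - x k‖ with hd
          have hd0 : 0 ≤ d := norm_nonneg _
          have htk := ht k
          have h6 : d * ‖z + x k‖ ≤ (r * t k * (1 - r * τ k)) * (m + r * t k) := by
            have h7 : ‖z + x k‖ ≤ m + r * t k := by linarith
            have h8 : 0 ≤ r * t k * (1 - r * τ k) := by
              have := r2 k
              have : 0 ≤ 1 - r * τ k := by linarith
              positivity
            exact mul_le_mul hcon h7 (norm_nonneg _) h8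
          have h9 : (1 - r * τ k) * (m + r * t k) ≤ m := by
            have h10 : (1 - r * τ k) * (m + r * t k) = m - r ^ 2 * τ k * t k := by
              have : r * τ k * m = r * t k := by rw [mul_assoc, h5]
              linear_combination -this
            rw [h10]
            have := hτ0 k
            have : 0 ≤ r ^ 2 * τ k * t k := by positivity
            linarith
          have h11 : (r * t k * (1 - r * τ k)) * (m + r * t k) ≤ r * t k * m := by
            rw [mul_assoc]
            exact mul_le_mul_of_nonneg_left h9 (by positivity)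
          have h12 : r * (m * t k) = r * t k * m := by ring
          linarith
      · left
        push Not at hex
        refine ⟨⟨?_, ?_⟩, ?_⟩
        · rw [mem_ball_zero_iff]; linarith
        · rw [mem_iUnion]
          rintro ⟨k, hk⟩
          rw [Metric.mem_closedBall, dist_eq_norm] at hk
          exact absurd hk (not_le.mpr (hex k))
        · rintro ⟨h1, _⟩
          linarith
    -- bounds
    have hbA : ∀ z, (∀ k, r * ρ0 ≤ ‖z - x k‖) → ‖q z‖ₑ ≤ ENNReal.ofReal (K / (r * ρ0) ^ 2) := by
      intro z hz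
      rw [← ofReal_norm]
      exact ENNReal.ofReal_le_ofReal (qq_bound x a b z (r * ρ0) hrρ r4 hz)
    have hfin : ∫⁻ z in A \ D, ‖q z‖ₑ ≠ ⊤ := by
      have h1 : ∫⁻ z in A \ D, ‖q z‖ₑ ≤ ∫⁻ _z in A \ D, ENNReal.ofReal (K / (r * ρ0) ^ 2) := by
        apply setLIntegral_mono' (hAm.diff hDo.measurableSet)
        intro z hz
        apply hbA
        intro k
        have h1 := hAk z hz.1 k
        have h2 := hρt k
        have h3 := ht k
        have h4 : r * ρ0 ≤ r * t k := mul_le_mul_of_nonneg_left (by linarith) hr0.le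
        linarith
      rw [setLIntegral_const] at h1
      have h2 : volume (A \ D) ≤ volume (Metric.ball (0 : ℂ) R) :=
        measure_mono (fun z hz => hz.1.1)
      have h3 : volume (Metric.ball (0 : ℂ) R) < ⊤ := measure_ball_lt_top
      exact (h1.trans_lt (ENNReal.mul_lt_top ENNReal.ofReal_lt_top (h2.trans_lt h3))).ne
    have hann : ∀ k, ∫⁻ z in An k, ‖q z‖ₑ
        ≤ ENNReal.ofReal (K / ρ0 ^ 2 * (2 * Real.pi * t k ^ 2 * τ k) * r) := by
      intro k
      have hAnm : MeasurableSet (An k) :=
        Metric.isClosed_closedBall.measurableSet.diff Metric.isClosed_closedBall.measurableSet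
      have h1 : ∫⁻ z in An k, ‖q z‖ₑ ≤ ∫⁻ _z in An k, ENNReal.ofReal (K / (r * ρ0) ^ 2) := by
        apply setLIntegral_mono' hAnm
        intro z hz
        apply hbA
        intro j
        have e1 : ‖z - x k‖ ≤ r * t k := by
          have := hz.1
          rwa [Metric.mem_closedBall, dist_eq_norm] at this
        have e2 : r * t k * (1 - r * τ k) < ‖z - x k‖ := by
          have := hz.2
          rw [Metric.mem_closedBall, dist_eq_norm] at this
          exact not_le.mp this
        by_cases hjk : j = k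
        · subst hjk
          have e3 := r2 j
          have e4 := hρt j
          have e5 := ht j
          have e6 : r * t j * (1 / 2) ≤ r * t j * (1 - r * τ j) :=
            mul_le_mul_of_nonneg_left (by linarith) (by positivity)
          have e7 : r * ρ0 ≤ r * (t j / 2) := mul_le_mul_of_nonneg_left e4 hr0.le
          linarith
        · have e3 := r3 k j (Ne.symm hjk)
          have e4 : ‖x k - x j‖ ≤ ‖z - x k‖ + ‖z - x j‖ := by
            have : x k - x j = (z - x j) - (z - x k) := by ring
            rw [this]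
            refine (norm_sub_le _ _).trans ?_
            linarith
          have e5 := hρt j
          have e6 := ht j
          have e7 : r * ρ0 ≤ r * t j := mul_le_mul_of_nonneg_left (by linarith) hr0.le
          linarith
      rw [setLIntegral_const] at h1
      refine h1.trans ?_
      have h2 : volume (An k) ≤ ENNReal.ofReal (2 * Real.pi * (r * t k) ^ 2 * (r * τ k)) := by
        apply ann_area
        · have := ht k; positivity
        · have := hτ0 k; positivity
        · have := r2 k; linarith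
      refine (mul_le_mul_right h2 _).trans ?_
      rw [← ENNReal.ofReal_mul (by positivity)]
      apply ENNReal.ofReal_le_ofReal
      apply le_of_eq
      have hne1 : r ≠ 0 := hr0.ne'
      have hne2 : ρ0 ≠ 0 := hρ0.ne'
      field_simp
    -- conclusion
    have hDA : D ⊆ A := by
      rintro z ⟨h1, h2⟩
      refine ⟨by rw [mem_ball_zero_iff]; exact h2, ?_⟩
      rw [mem_iUnion]
      rintro ⟨k, hk⟩
      rw [Metric.mem_closedBall, dist_eq_norm] at hk
      have h3 := r1 k
      have h4 : ‖z‖ ≤ ‖z - x k‖ + ‖x k‖ := by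
        have := norm_add_le (z - x k) (x k)
        simpa using this
      have := hxS k
      linarith
    have hsplit : ∫⁻ z in A, ‖q z‖ₑ = (∫⁻ z in D, ‖q z‖ₑ) + ∫⁻ z in A \ D, ‖q z‖ₑ := by
      rw [← lintegral_inter_add_sdiff _ A hDo.measurableSet, inter_eq_self_of_subset_right hDA]
    have h1 : (∫⁻ z in A \ D, ‖q z‖ₑ) + ∫⁻ z in D, ‖q z‖ₑ
        ≤ (∫⁻ z in A \ D, ‖q z‖ₑ) + ∑ k, ∫⁻ z in An k, ‖q z‖ₑ := by
      rw [add_comm, ← hsplit]
      refine hpush.trans ((lintegral_mono_set hsub).trans ((lintegral_union_le _ _ _).trans ?_))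
      gcongr
      refine (lintegral_iUnion_le _ _).trans ?_
      rw [tsum_fintype]
    have h2 := (ENNReal.add_le_add_iff_left hfin).mp h1
    refine h2.trans ((Finset.sum_le_sum fun k _ => hann k).trans ?_)
    rw [← ENNReal.ofReal_sum_of_nonneg]
    · apply ENNReal.ofReal_le_ofReal
      rw [hCst, Finset.sum_mul]
    · intro k _
      have := hτ0 k
      positivity
  -- the mass on `D` vanishes
  have hzero : ∫⁻ z in D, ‖q z‖ₑ = 0 := by
    have hlim : Tendsto (fun r : ℝ => ENNReal.ofReal (Cst * r)) (𝓝[>] 0) (𝓝 0) := by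
      have h1 : Tendsto (fun r : ℝ => ENNReal.ofReal (Cst * r)) (𝓝 0)
          (𝓝 (ENNReal.ofReal (Cst * 0))) :=
        (ENNReal.continuous_ofReal.comp (continuous_const.mul continuous_id)).tendsto 0
      rw [mul_zero, ENNReal.ofReal_zero] at h1
      exact h1.mono_left nhdsWithin_le_nhds
    exact le_antisymm (ge_of_tendsto hlim hmain) bot_le
  have hae := (setLIntegral_eq_zero_iff hDo.measurableSet hqm.enorm).mp hzero
  refine qq_zero x a b hinj D hDo hDne hDx ?_ k
  intro z hz
  by_contra hne
  have hcont : ContinuousOn q D := by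
    intro w hw
    exact ((qq_analytic x a b) w (by
      rintro ⟨j, hj⟩
      exact hDx w hw j hj.symm)).continuousAt.continuousWithinAt
  have hopen : IsOpen (D ∩ q ⁻¹' {0}ᶜ) :=
    hcont.isOpen_inter_preimage hDo isOpen_compl_singleton
  have hpos : 0 < volume (D ∩ q ⁻¹' {0}ᶜ) := hopen.measure_pos volume ⟨z, hz, hne⟩
  have hnull : volume (D ∩ q ⁻¹' {0}ᶜ) = 0 := by
    refine measure_mono_null ?_ (ae_iff.mp hae)
    rintro w ⟨hw1, hw2⟩ hw3
    apply hw2
    have := hw3 hw1
    exact enorm_eq_zero.mp this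
  exact hpos.ne' hnull

end Pool.Agent.EDG.H87
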