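import Pool.Agent.EDG.StmtsQ

/-!
# Squad EDG, block Q (helper87): the push forward inequality

`q` satisfies `4 s ^ 2 q(s ^ 2 + c) = q(s) + q(-s)` above a measurable set `A`.  Then the mass of `|q|` on
`A` is at most the mass of `|q|` on the preimage of `A` under `s ^ 2 + c`.
-/

set_option autoImplicit false

open MeasureTheory Set

namespace Pool.Agent.EDG.H87

/-- the real derivative of `s ^ 2 + c` -/
noncomputable def dsq (s : ℂ) : ℂ →L[ℝ] ℂ :=
  ((ContinuousLinearMap.toSpanSingleton ℂ (2 * s) : ℂ →L[ℂ] ℂ)).restrictScalars ℝ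

theorem hasFDeriv (c s : ℂ) : HasFDerivAt (fun z : ℂ => z ^ 2 + c) (dsq s) s := by
  have h : HasDerivAt (fun z : ℂ => z ^ 2 + c) (2 * s) s := by
    have := (hasDerivAt_pow 2 s).add_const c
    simpa using this
  exact h.hasFDerivAt.restrictScalars ℝ

theorem det_dsq (s : ℂ) : (dsq s).det = ‖2 * s‖ ^ 2 := by
  simp [dsq, ContinuousLinearMap.det, LinearMap.det_restrictScalars, Algebra.norm_complex_eq,
    Complex.normSq_eq_norm_sq]

/-- the imaginary axis is a null set -/
theorem null_re : volume {s : ℂ | s.re = 0} = 0 := by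
  have h := Measure.addHaar_submodule (volume : Measure ℂ)
    (LinearMap.ker (Complex.reLm : ℂ →ₗ[ℝ] ℝ)) (by
      intro h
      have h1 : (1 : ℂ) ∈ LinearMap.ker (Complex.reLm : ℂ →ₗ[ℝ] ℝ) := by
        rw [h]; trivial
      simp at h1)
  exact h

theorem push (c : ℂ) (q : ℂ → ℂ) (hqm : Measurable q) (A : Set ℂ) (hA : MeasurableSet A)
    (hq : ∀ s : ℂ, s ≠ 0 → s ^ 2 + c ∈ A → 4 * s ^ 2 * q (s ^ 2 + c) = q s + q (-s)) :
    ∫⁻ w in A, ‖q w‖ₑ ≤ ∫⁻ z in (fun z : ℂ => z ^ 2 + c) ⁻¹' A, ‖q z‖ₑ := by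
  set f : ℂ → ℂ := fun z => z ^ 2 + c with hf
  have hfm : Measurable f := by fun_prop
  set B : Set ℂ := f ⁻¹' A with hB
  have hBm : MeasurableSet B := hfm hA
  set H : Set ℂ := {s : ℂ | 0 < s.re} with hH
  have hHm : MeasurableSet H := measurableSet_lt measurable_const Complex.measurable_re
  set H' : Set ℂ := {s : ℂ | s.re < 0} with hH'
  have hHm' : MeasurableSet H' := measurableSet_lt Complex.measurable_re measurable_const
  have hinj : InjOn f (H ∩ B) := by
    intro a ha b hb hab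
    have h1 : (a - b) * (a + b) = 0 := by
      have : a ^ 2 + c = b ^ 2 + c := hab
      linear_combination this
    rcases mul_eq_zero.mp h1 with h | h
    · exact sub_eq_zero.mp h
    · exfalso
      have h2 : (a + b).re = 0 := by rw [h]; rfl
      have h3 : 0 < a.re := ha.1
      have h4 : 0 < b.re := hb.1
      rw [Complex.add_re] at h2
      linarith
  -- `A` is covered by the image and a null set
  have hcov : A ⊆ f '' (H ∩ B) ∪ f '' {s : ℂ | s.re = 0} := by
    intro w hw
    obtain ⟨s, hs⟩ : ∃ s : ℂ, s ^ 2 = w - c :=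
      ⟨(w - c) ^ ((1 : ℂ) / 2), by
        have := Complex.cpow_nat_inv_pow (w - c) (n := 2) two_ne_zero
        rw [one_div]
        exact this⟩
    have hfs : f s = w := by simp only [hf]; rw [hs]; ring
    have hfs' : f (-s) = w := by simp only [hf]; rw [neg_sq, hs]; ring
    rcases lt_trichotomy s.re 0 with h | h | h
    · left
      refine ⟨-s, ⟨?_, ?_⟩, hfs'⟩
      · show 0 < (-s).re
        rw [Complex.neg_re]; linarith
      · show f (-s) ∈ A
        rw [hfs']; exact hw
    · right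
      exact ⟨s, h, hfs⟩
    · left
      refine ⟨s, ⟨h, ?_⟩, hfs⟩
      show f s ∈ A
      rw [hfs]; exact hw
  have hnull : volume (f '' {s : ℂ | s.re = 0}) = 0 := by
    apply addHaar_image_eq_zero_of_differentiableOn_of_addHaar_eq_zero
    · intro s _
      exact (hasFDeriv c s).differentiableAt.differentiableWithinAt
    · exact null_re
  calc ∫⁻ w in A, ‖q w‖ₑ
      ≤ ∫⁻ w in f '' (H ∩ B) ∪ f '' {s : ℂ | s.re = 0}, ‖q w‖ₑ :=
        lintegral_mono_set hcov
    _ ≤ (∫⁻ w in f '' (H ∩ B), ‖q w‖ₑ) + ∫⁻ w in f '' {s : ℂ | s.re = 0}, ‖q w‖ₑ :=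
        lintegral_union_le _ _ _
    _ = ∫⁻ w in f '' (H ∩ B), ‖q w‖ₑ := by
        rw [setLIntegral_measure_zero _ _ hnull, add_zero]
    _ = ∫⁻ s in H ∩ B, ENNReal.ofReal |(dsq s).det| * ‖q (f s)‖ₑ :=
        lintegral_image_eq_lintegral_abs_det_fderiv_mul volume (hHm.inter hBm)
          (fun s _ => (hasFDeriv c s).hasFDerivWithinAt) hinj _
    _ ≤ ∫⁻ s in H ∩ B, (‖q s‖ₑ + ‖q (-s)‖ₑ) := by
        apply setLIntegral_mono' (hHm.inter hBm)
        intro s hs
        have hs0 : s ≠ 0 := by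
          rintro rfl
          have : (0 : ℝ) < (0 : ℂ).re := hs.1
          simp at this
        have h1 : ENNReal.ofReal |(dsq s).det| = ‖4 * s ^ 2‖ₑ := by
          rw [det_dsq, abs_of_nonneg (by positivity), ← ofReal_norm]
          congr 1
          rw [norm_mul, norm_mul, norm_pow]
          simp
          ring
        rw [h1, ← enorm_mul, hq s hs0 hs.2]
        exact enorm_add_le _ _
    _ = (∫⁻ s in H ∩ B, ‖q s‖ₑ) + ∫⁻ s in H ∩ B, ‖q (-s)‖ₑ :=
        lintegral_add_left (by fun_prop) _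
    _ = (∫⁻ s in H ∩ B, ‖q s‖ₑ) + ∫⁻ s in H' ∩ B, ‖q s‖ₑ := by
        congr 1
        have hmp : MeasurePreserving (fun s : ℂ => -s) volume volume :=
          Measure.measurePreserving_neg volume
        have hpre : (fun s : ℂ => -s) ⁻¹' (H' ∩ B) = H ∩ B := by
          ext s
          simp only [mem_preimage, mem_inter_iff, hH, hH', hB, mem_ofPred_eq, Complex.neg_re,
            neg_lt_zero, hf, neg_sq]
        rw [← hpre]
        exact hmp.setLIntegral_comp_preimage (hHm'.inter hBm) hqm.enorm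
    _ = ∫⁻ s in (H ∩ B) ∪ (H' ∩ B), ‖q s‖ₑ := by
        rw [lintegral_union (hHm'.inter hBm)]
        rw [Set.disjoint_left]
        intro s h1 h2
        have h3 : 0 < s.re := h1.1
        have h4 : s.re < 0 := h2.1
        linarith
    _ ≤ ∫⁻ z in B, ‖q z‖ₑ := by
        apply lintegral_mono_set
        rintro s (h | h)
        · exact h.2
        · exact h.2

end Pool.Agent.EDG.H87
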