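import Pool.Agent.Helper87_EDG.Push

/-!
# Squad EDG, block Q (helper87): the quadratic differential and its functional equation
-/

set_option autoImplicit false

open MeasureTheory Set Filter Topology

namespace Pool.Agent.EDG.H87

variable {ι : Type} [Fintype ι]

/-- the quadratic differential with double poles `a` and simple poles `b` at the points `x` -/
noncomputable def qq (x a b : ι → ℂ) (z : ℂ) : ℂ :=
  ∑ k, (a k * ((z - x k) ^ 2)⁻¹ + b k * (z - x k)⁻¹)

theorem qq_measurable (x a b : ι → ℂ) : Measurable (qq x a b) := by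
  unfold qq
  fun_prop

/-- the functional equation -/
theorem feq (c : ℂ) (σ : Equiv.Perm ι) (x a b : ι → ℂ) (hx : ∀ k, x (σ k) = x k ^ 2 + c)
    (ha : ∀ k, a (σ k) = a k) (hb : ∀ k, b k - 2 * x k * b (σ k) = a k * (x k)⁻¹)
    (hx0 : ∀ k, x k ≠ 0) (hsum : ∑ k, b k = 0) (s : ℂ) (hs : ∀ k, s ^ 2 + c ≠ x k) :
    4 * s ^ 2 * qq x a b (s ^ 2 + c) = qq x a b s + qq x a b (-s) := by
  have h1 : qq x a b (s ^ 2 + c)
      = ∑ k, (a k * ((s ^ 2 + c - x (σ k)) ^ 2)⁻¹ + b (σ k) * (s ^ 2 + c - x (σ k))⁻¹) := by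
    unfold qq
    rw [← Equiv.sum_comp σ]
    apply Finset.sum_congr rfl
    intro k _
    rw [ha k]
  have h2 : ∑ k, b (σ k) = 0 := by rw [Equiv.sum_comp σ b, hsum]
  have h3 : ∀ k, 4 * s ^ 2 * (a k * ((s ^ 2 + c - x (σ k)) ^ 2)⁻¹
      + b (σ k) * (s ^ 2 + c - x (σ k))⁻¹)
      = (a k * ((s - x k) ^ 2)⁻¹ + b k * (s - x k)⁻¹)
        + (a k * ((-s - x k) ^ 2)⁻¹ + b k * (-s - x k)⁻¹) + 4 * b (σ k) := by
    intro k
    have e1 : s ^ 2 + c - x (σ k) = (s - x k) * (s + x k) := by rw [hx k]; ring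
    have e2 : (s - x k) * (s + x k) ≠ 0 := by
      rw [← e1]
      exact sub_ne_zero.mpr (hs (σ k))
    have e3 : s - x k ≠ 0 := left_ne_zero_of_mul e2
    have e4 : s + x k ≠ 0 := right_ne_zero_of_mul e2
    have e5 : -s - x k = -(s + x k) := by ring
    have e6 : b k = 2 * x k * b (σ k) + a k * (x k)⁻¹ := by linear_combination hb k
    have e7 := hx0 k
    rw [e1, e5, e6]
    field_simp
    ring
  rw [h1, Finset.mul_sum]
  unfold qq
  rw [← Finset.sum_add_distrib, Finset.sum_congr rfl (fun k _ => h3 k), Finset.sum_add_distrib,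
    ← Finset.mul_sum, h2, mul_zero, add_zero]

/-- the bound away from the poles -/
theorem qq_bound (x a b : ι → ℂ) (z : ℂ) (ρ : ℝ) (hρ : 0 < ρ) (hρ1 : ρ ≤ 1)
    (hz : ∀ k, ρ ≤ ‖z - x k‖) :
    ‖qq x a b z‖ ≤ (∑ k, (‖a k‖ + ‖b k‖)) / ρ ^ 2 := by
  unfold qq
  refine (norm_sum_le _ _).trans ?_
  rw [Finset.sum_div]
  apply Finset.sum_le_sum
  intro k _
  have h1 := hz k
  have h0 : 0 < ‖z - x k‖ := hρ.trans_le h1
  calc ‖a k * ((z - x k) ^ 2)⁻¹ + b k * (z - x k)⁻¹‖
      ≤ ‖a k‖ * (‖z - x k‖ ^ 2)⁻¹ + ‖b k‖ * ‖z - x k‖⁻¹ := by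
        refine (norm_add_le _ _).trans ?_
        rw [norm_mul, norm_mul, norm_inv, norm_inv, norm_pow]
    _ ≤ ‖a k‖ * (ρ ^ 2)⁻¹ + ‖b k‖ * (ρ ^ 2)⁻¹ := by
        have h2 : (‖z - x k‖ ^ 2)⁻¹ ≤ (ρ ^ 2)⁻¹ := by
          apply inv_anti₀ (by positivity)
          exact pow_le_pow_left₀ hρ.le h1 2
        have h3 : ‖z - x k‖⁻¹ ≤ (ρ ^ 2)⁻¹ := by
          apply inv_anti₀ (by positivity)
          nlinarith
        gcongr
    _ = (‖a k‖ + ‖b k‖) / ρ ^ 2 := by
        rw [← add_mul, div_eq_mul_inv]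

/-- `qq` is analytic away from the poles -/
theorem qq_analytic (x a b : ι → ℂ) : AnalyticOnNhd ℂ (qq x a b) (range x)ᶜ := by
  apply DifferentiableOn.analyticOnNhd
  · intro z hz
    apply DifferentiableAt.differentiableWithinAt
    unfold qq
    apply DifferentiableAt.fun_sum
    intro k _
    have h0 : z - x k ≠ 0 := by
      intro h
      exact hz ⟨k, (sub_eq_zero.mp h).symm⟩
    have h1 : (z - x k) ^ 2 ≠ 0 := pow_ne_zero 2 h0
    fun_prop (disch := assumption)
  · exact (Set.finite_range x).isClosed.isOpen_compl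

/-- if `qq` vanishes on a nonempty open set then all coefficients vanish -/
theorem qq_zero [DecidableEq ι] (x a b : ι → ℂ) (hinj : Function.Injective x) (D : Set ℂ) (hD : IsOpen D)
    (hne : D.Nonempty) (hDx : ∀ z ∈ D, ∀ k, z ≠ x k) (h0 : ∀ z ∈ D, qq x a b z = 0) (k : ι) :
    a k = 0 ∧ b k = 0 := by
  obtain ⟨z0, hz0⟩ := hne
  have hU : ∀ z, (∀ j, z ≠ x j) → qq x a b z = 0 := by
    intro z hz
    have hpre : IsPreconnected (range x)ᶜ :=
      (Set.Countable.isConnected_compl_of_one_lt_rank (by simp)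
        (Set.finite_range x).countable).2
    have hev : qq x a b =ᶠ[𝓝 z0] 0 := by
      filter_upwards [hD.mem_nhds hz0] with w hw
      exact h0 w hw
    have := (qq_analytic x a b).eqOn_zero_of_preconnected_of_eventuallyEq_zero hpre
      (by rintro ⟨j, hj⟩; exact hDx z0 hz0 j hj.symm) hev
    exact this (by rintro ⟨j, hj⟩; exact hz j hj.symm)
  -- the regular part at `x k`
  set g : ℂ → ℂ := fun z => ∑ j ∈ Finset.univ.erase k,
    (a j * ((z - x j) ^ 2)⁻¹ + b j * (z - x j)⁻¹) with hg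
  have hgc : ContinuousAt g (x k) := by
    refine tendsto_finsetSum _ (fun j hj => ?_)
    show ContinuousAt (fun z => a j * ((z - x j) ^ 2)⁻¹ + b j * (z - x j)⁻¹) (x k)
    have hjk : j ≠ k := Finset.ne_of_mem_erase hj
    have h0 : x k - x j ≠ 0 := by
      intro h
      exact hjk (hinj (sub_eq_zero.mp h)).symm
    have h1 : (x k - x j) ^ 2 ≠ 0 := pow_ne_zero 2 h0
    fun_prop (disch := assumption)
  have hqg : ∀ z, z ≠ x k → qq x a b z = a k * ((z - x k) ^ 2)⁻¹ + b k * (z - x k)⁻¹ + g z := by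
    intro z _
    unfold qq
    rw [hg, ← Finset.add_sum_erase _ _ (Finset.mem_univ k)]
  have hnear : ∀ᶠ z in 𝓝[≠] (x k), qq x a b z = 0 := by
    have h1 : ∀ᶠ z in 𝓝 (x k), ∀ j, j ≠ k → z ≠ x j := by
      rw [Filter.eventually_all]
      intro j
      by_cases hjk : j = k
      · exact Filter.Eventually.of_forall fun z h => absurd hjk h
      · have : ∀ᶠ z in 𝓝 (x k), z ≠ x j :=
          isOpen_ne.mem_nhds (fun h => hjk (hinj h).symm)
        filter_upwards [this] with z hz _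
        exact hz
    have h2 : ∀ᶠ z in 𝓝[≠] (x k), ∀ j, j ≠ k → z ≠ x j := h1.filter_mono nhdsWithin_le_nhds
    filter_upwards [h2, self_mem_nhdsWithin] with z hz hzk
    apply hU
    intro j
    by_cases hjk : j = k
    · subst hjk
      exact hzk
    · exact hz j hjk
  have lim_zero : ∀ G : ℂ → ℂ, ContinuousAt G (x k) → (∀ᶠ z in 𝓝[≠] (x k), G z = 0) →
      G (x k) = 0 := by
    intro G hG hG0
    have h1 : Tendsto G (𝓝[≠] (x k)) (𝓝 (G (x k))) := hG.tendsto.mono_left nhdsWithin_le_nhds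
    have h2 : Tendsto G (𝓝[≠] (x k)) (𝓝 0) :=
      tendsto_const_nhds.congr' (by filter_upwards [hG0] with z hz using hz.symm)
    exact tendsto_nhds_unique h1 h2
  have hak : a k = 0 := by
    have := lim_zero (fun z => a k + b k * (z - x k) + (z - x k) ^ 2 * g z) (by fun_prop) (by
      filter_upwards [hnear, self_mem_nhdsWithin] with z hz hzk
      have h0 : z - x k ≠ 0 := sub_ne_zero.mpr hzk
      rw [hqg z hzk] at hz
      have : a k + b k * (z - x k) + (z - x k) ^ 2 * g z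
          = (z - x k) ^ 2 * (a k * ((z - x k) ^ 2)⁻¹ + b k * (z - x k)⁻¹ + g z) := by
        field_simp
      rw [this, hz, mul_zero])
    simpa using this
  refine ⟨hak, ?_⟩
  have := lim_zero (fun z => b k + (z - x k) * g z) (by fun_prop) (by
    filter_upwards [hnear, self_mem_nhdsWithin] with z hz hzk
    have h0 : z - x k ≠ 0 := sub_ne_zero.mpr hzk
    rw [hqg z hzk, hak] at hz
    have : b k + (z - x k) * g z
        = (z - x k) * (0 * ((z - x k) ^ 2)⁻¹ + b k * (z - x k)⁻¹ + g z) := by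
      field_simp
      ring
    rw [this, hz, mul_zero])
  simpa using this

end Pool.Agent.EDG.H87
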